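import Pool.Agent.MP_ce43bb_an.H78.Main

open Pool.Agent.MP_ce43bb_an.H78

namespace Pool.Agent.Results.MP_ce43bb_an.Unequal

/-- The two non-microstates free entropy dimensions differ for some tuple, with `limsup` and
with `liminf` in their definitions. -/
theorem result :
    ∃ (n : ℕ) (H : Type) (_ : NormedAddCommGroup H) (_ : InnerProductSpace ℂ H)
      (_ : CompleteSpace H) (M : VonNeumannAlgebra H) (Ω : H) (x s s' : Fin n → H →L[ℂ] H),
      1 ≤ n ∧ IsTracial M Ω ∧
      (∀ i, x i ∈ M ∧ IsSelfAdjoint (x i) ∧ s i ∈ M ∧ s' i ∈ M) ∧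
      FreeSemicircular Ω (Set.range x) s ∧
      FreeSemicircular Ω (Set.range x ∪ Set.range s) s' ∧
      (∀ t > 0, fisher Ω (pert x s t) ≠ ⊤ ∧ ChiFinite Ω (pert x s t) s') ∧
      deltaFisher Ω x s < deltaChi Ω x s s' ∧
      deltaChiInf Ω x s s' < deltaFisherInf Ω x s :=
  main

end Pool.Agent.Results.MP_ce43bb_an.Unequal
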